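import Pool.Agent.W85.WD.BunA

/-! # Project WILD: the projective line bundle of a normal form -/

set_option autoImplicit false
set_option linter.unusedVariables false
set_option linter.unusedSectionVars false

universe u

open Polynomial Pool.Agent.W558 Pool.Agent.W498.Tor

namespace Pool.Agent.W85.WD

section base

variable {k L : Type u} [Field k] [Field L] [Algebra k L] {T I : Type}
  (M : LM (⊥ : Subalgebra k L) ⊤ T I)

/-- The coordinate ring of the intersection of two charts. -/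
noncomputable def BB2 (t t' : T) : Subalgebra k L := adj (M.A t) (M.H t' / M.H t)⁻¹

lemma mem_BB2 {t t' : T} {z : L} :
    z ∈ BB2 M t t' ↔ ∃ n : ℕ, (M.H t' / M.H t) ^ n * z ∈ M.A t := by
  rw [BB2, mem_adj_inv (M.rt t t') (div_ne_zero (M.H0 _) (M.H0 _))]
  simp only [mul_comm]

lemma le_BB2 (t t' : T) : M.A t ≤ BB2 M t t' := le_adj _ _

lemma le_BB2' (t t' : T) : M.A t' ≤ BB2 M t t' := fun f hf => (mem_BB2 M).2 (M.gl t t' f hf)

lemma x_div_mem (t t' : T) (i : I) : M.x t' i / M.x t i ∈ BB2 M t t' :=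
  (mem_BB2 M).2 (M.gi t t' i)

lemma x_div_mem' (t t' : T) (i : I) : M.x t i / M.x t' i ∈ BB2 M t t' := by
  obtain ⟨n, hn⟩ := M.gi t' t i
  have h1 := le_BB2' M t t' hn
  have h2 : M.x t i / M.x t' i = (M.H t' / M.H t) ^ n *
      ((M.H t / M.H t') ^ n * (M.x t i / M.x t' i)) := by
    have h3 := M.H0 t
    have h4 := M.H0 t'
    rw [← mul_assoc, ← mul_pow, div_mul_div_cancel₀ h3, div_self h4, one_pow, one_mul]
  rw [h2]
  exact Subalgebra.mul_mem _ (Subalgebra.pow_mem _ (le_BB2 M t t' (M.rt t t')) n) h1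

variable [Fintype I]

/-- The monomial. -/
noncomputable def XM (m : I → ℤ) (t : T) : L := ∏ i, M.x t i ^ m i

lemma XM_ne (m : I → ℤ) (t : T) : XM M m t ≠ 0 :=
  Finset.prod_ne_zero_iff.2 fun i _ => zpow_ne_zero _ (M.x0 t i)

lemma XM_div_mem (m : I → ℤ) (t t' : T) : XM M m t' / XM M m t ∈ BB2 M t t' ∧
    XM M m t / XM M m t' ∈ BB2 M t t' := by
  have h1 : ∀ s s' : T, XM M m s' / XM M m s = ∏ i, (M.x s' i / M.x s i) ^ m i := by
    intro s s'
    rw [XM, XM, ← Finset.prod_div_distrib]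
    exact Finset.prod_congr rfl fun i _ => (div_zpow _ _ _).symm
  have h2 : ∀ i, (M.x t' i / M.x t i) ^ m i ∈ BB2 M t t' ∧
      (M.x t i / M.x t' i) ^ m i ∈ BB2 M t t' := by
    intro i
    rcases Int.eq_nat_or_neg (m i) with ⟨n, hn | hn⟩
    · rw [hn, zpow_natCast, zpow_natCast]
      exact ⟨Subalgebra.pow_mem _ (x_div_mem M t t' i) n,
        Subalgebra.pow_mem _ (x_div_mem' M t t' i) n⟩
    · rw [hn, zpow_neg, zpow_neg, zpow_natCast, zpow_natCast, ← inv_pow, ← inv_pow, inv_div,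
        inv_div]
      exact ⟨Subalgebra.pow_mem _ (x_div_mem' M t t' i) n,
        Subalgebra.pow_mem _ (x_div_mem M t t' i) n⟩
  rw [h1, h1]
  exact ⟨Subalgebra.prod_mem _ fun i _ => (h2 i).1, Subalgebra.prod_mem _ fun i _ => (h2 i).2⟩

lemma XM_mem {m : I → ℤ} (hm : ∀ i, 0 ≤ m i) (t : T) : XM M m t ∈ M.A t := by
  refine Subalgebra.prod_mem _ fun i _ => ?_
  obtain ⟨n, hn⟩ := Int.eq_ofNat_of_zero_le (hm i)
  rw [hn, zpow_natCast]
  exact Subalgebra.pow_mem _ (M.xA t i) n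

/-- The coordinate rings are integrally closed. -/
lemma root_mem (hnorm : WD_norm.{u}) (hF : Frc M) {p : ℕ} (hp : 0 < p) (t t' : T) {z : L}
    (hz : z ^ p ∈ BB2 M t t') : z ∈ BB2 M t t' := by
  have := M.sm t
  have hs : Algebra.Smooth k (BB2 M t t') :=
    smooth_adj_inv (M.rt t t') (div_ne_zero (M.H0 _) (M.H0 _))
  have hn : IsIntegrallyClosed (BB2 M t t') := hnorm k (BB2 M t t')
  have hfr : IsFractionRing (BB2 M t t') L := by
    refine IsFractionRing.of_field _ _ fun x => ?_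
    obtain ⟨a, ha, b, hb, hb0, h1⟩ := hF t x
    refine ⟨⟨a, le_BB2 M t t' ha⟩, ⟨b, le_BB2 M t t' hb⟩, ?_⟩
    rw [h1]
    exact (div_eq_mul_inv _ _).symm
  obtain ⟨w, hw⟩ := IsIntegrallyClosed.exists_algebraMap_eq_of_isIntegral_pow
    (R := BB2 M t t') (K := L) (x := z) hp
    ((IsIntegrallyClosed.isIntegral_iff (R := BB2 M t t')).2 ⟨⟨_, hz⟩, rfl⟩)
  rw [← hw]
  exact w.2

variable {p : ℕ} [Fact p.Prime] [CharP k p] {f : L} {n : I → ℤ} {a h : T → L}

lemma prod_split (x : I → L) (hx : ∀ i, x i ≠ 0) (n : I → ℤ) :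
    ∏ i, x i ^ n i = (∏ i, x i ^ (n i / (p : ℤ))) ^ p * ∏ i, x i ^ (n i % (p : ℤ)) := by
  rw [← Finset.prod_pow, ← Finset.prod_mul_distrib]
  refine Finset.prod_congr rfl fun i _ => ?_
  rw [← zpow_natCast, ← zpow_mul, ← zpow_add₀ (hx i), mul_comm (n i / (p : ℤ)),
    Int.mul_ediv_add_emod]

/-- The differences of the coordinates. -/
lemma delta_mem (hnorm : WD_norm.{u}) (hF : Frc M) (hN : NFH p M f n a h) (t t' : T) :
    (a t - a t') / XM M (fun i => n i / (p : ℤ)) t ∈ BB2 M t t' := by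
  have hp := (Fact.out : p.Prime).pos
  have hpz : (0 : ℤ) < (p : ℤ) := by exact_mod_cast hp
  have : CharP L p := charP_of_injective_algebraMap (algebraMap k L).injective p
  refine root_mem M hnorm hF hp t t' ?_
  have e : ((a t - a t') / XM M (fun i => n i / (p : ℤ)) t) ^ p =
      (XM M (fun i => n i / (p : ℤ)) t' / XM M (fun i => n i / (p : ℤ)) t) ^ p *
        XM M (fun i => n i % (p : ℤ)) t' * h t' - XM M (fun i => n i % (p : ℤ)) t * h t := by
    have h1 := hN.eq t
    have h2 := hN.eq t'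
    rw [prod_split (p := p) _ (M.x0 t)] at h1
    rw [prod_split (p := p) _ (M.x0 t')] at h2
    have h3 := XM_ne M (fun i => n i / (p : ℤ)) t
    change f = a t ^ p + XM M (fun i => n i / (p : ℤ)) t ^ p *
      XM M (fun i => n i % (p : ℤ)) t * h t at h1
    change f = a t' ^ p + XM M (fun i => n i / (p : ℤ)) t' ^ p *
      XM M (fun i => n i % (p : ℤ)) t' * h t' at h2
    rw [div_pow, div_pow, sub_pow_char, eq_sub_iff_add_eq]
    have h4 := pow_ne_zero p h3
    field_simp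
    linear_combination h2 - h1
  rw [e]
  have h5 : ∀ s, XM M (fun i => n i % (p : ℤ)) s ∈ M.A s := fun s =>
    XM_mem M (fun i => Int.emod_nonneg _ hpz.ne') s
  refine Subalgebra.sub_mem _ (Subalgebra.mul_mem _ (Subalgebra.mul_mem _ (Subalgebra.pow_mem _
    (XM_div_mem M _ t t').1 p) (le_BB2' M t t' (h5 t'))) (le_BB2' M t t' (hN.hA t')))
    (Subalgebra.mul_mem _ (le_BB2 M t t' (h5 t)) (le_BB2 M t t' (hN.hA t)))

end base

section top

variable {k L N : Type u} [Field k] [Field L] [Field N] [Algebra k L] [Algebra k N]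
  [Algebra L N] [IsScalarTower k L N] {T I : Type} (M : LM (⊥ : Subalgebra k L) ⊤ T I)

lemma mem_map_em {A : Subalgebra k L} {z : L} (hz : z ∈ A) :
    algebraMap L N z ∈ A.map (em k L N) := ⟨z, hz, rfl⟩

/-- The coordinate. -/
noncomputable def yc (Z : N) (a X : L) : N := (Z - algebraMap L N a) / algebraMap L N X

lemma transcendental_yc {Z : N} (hZ : Transcendental L Z) {a X : L} (hX : X ≠ 0) :
    Transcendental L (yc Z a X) := by
  intro h1
  apply hZ
  have h2 : Z = algebraMap L N X * yc Z a X + algebraMap L N a := by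
    have : algebraMap L N X ≠ 0 := (_root_.map_ne_zero _).2 hX
    rw [yc, mul_div_cancel₀ _ this, sub_add_cancel]
  rw [h2]
  exact (isAlgebraic_algebraMap X |>.mul h1).add (isAlgebraic_algebraMap a)

lemma tr_of_transcendental {A : Subalgebra k L} {y : N} (hy : Transcendental L y) :
    Tr (A.map (em k L N)) y := by
  intro P hP
  let j : A.map (em k L N) →+* L := A.val.toRingHom.comp
    (eqv (K := N) A).symm.toAlgHom.toRingHom
  have hj : Function.Injective j := fun u v huv =>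
    (eqv (K := N) A).symm.injective (Subtype.ext huv)
  have hj2 : (algebraMap L N).comp j = algebraMap (A.map (em k L N)) N := by
    apply RingHom.ext
    intro u
    obtain ⟨v, rfl⟩ := (eqv (K := N) A).surjective u
    change algebraMap L N (((eqv (K := N) A).symm ((eqv (K := N) A) v) : A) : L) = _
    rw [AlgEquiv.symm_apply_apply]
    rfl
  have h4 : aeval y (P.map j) = 0 := by
    rw [aeval_def, eval₂_map, hj2]
    exact hP
  exact (Polynomial.map_eq_zero_iff hj).1 (transcendental_iff.1 hy _ h4)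

/-- Extension of tangent vectors by zero. -/
lemma lift_TV {A : Subalgebra k L} {y : N} (hy : Tr (A.map (em k L N)) y) {κ : Type u}
    [Field κ] [Algebra k κ] (φ : adj (A.map (em k L N)) y →ₐ[k] κ)
    (φ0 : A →ₐ[k] κ) (h0 : ∀ a : A, φ ⟨em k L N a, le_adj _ _ ⟨a, a.2, rfl⟩⟩ = φ0 a)
    (D : TV φ0) :
    ∃ E : TV φ, (∀ (a : L) (ha : a ∈ A) (h' : em k L N a ∈ adj (A.map (em k L N)) y),
      E.D ⟨em k L N a, h'⟩ = D.D ⟨a, ha⟩) ∧ ∀ h', E.D ⟨y, h'⟩ = 0 := by
  let e := eqv (K := N) A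
  let φ1 : A.map (em k L N) →ₐ[k] κ := φ.comp (Subalgebra.inclusion (le_adj _ y))
  have h2 : ∀ b, (φ0.comp e.symm.toAlgHom) b = φ1 b := by
    intro b
    obtain ⟨a, rfl⟩ := e.surjective b
    change φ0 (e.symm (e a)) = φ (Subalgebra.inclusion (le_adj _ y) (e a))
    rw [e.symm_apply_apply, ← h0]
    rfl
  obtain ⟨E, hE1, hE2⟩ := ext_pe hy φ φ1 (fun _ => rfl) ((D.restr e.symm.toAlgHom).cast h2) 0
  refine ⟨E, ?_, hE2⟩
  intro a ha h'
  rw [hE1 (em k L N a) ⟨a, ha, rfl⟩ h', TV.cast_D, TV.restr_D]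
  congr 1
  apply e.injective
  change e (e.symm _) = _
  rw [e.apply_symm_apply]
  rfl

lemma map_BB2 {t t' : T} {z : L} (hz : z ∈ BB2 M t t') : ∃ n : ℕ,
    ((mapLM (K := N) M).H t' / (mapLM (K := N) M).H t) ^ n * algebraMap L N z ∈
      (mapLM (K := N) M).A t := by
  obtain ⟨n, hn⟩ := (mem_BB2 M).1 hz
  refine ⟨n, _, hn, ?_⟩
  change em k L N _ = _
  rw [map_mul, map_pow, map_div₀]
  rfl

/-- Elements which are fractions with a denominator which is a unit of `Q`. -/
def Wf (A Q : Subalgebra k N) (z : N) : Prop := ∃ δ ∈ A, δ ≠ 0 ∧ δ⁻¹ ∈ Q ∧ δ * z ∈ A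

lemma Wf.add {A Q : Subalgebra k N} {z w : N} (hz : Wf A Q z) (hw : Wf A Q w) :
    Wf A Q (z + w) := by
  obtain ⟨d, hd, hd0, hdi, h1⟩ := hz
  obtain ⟨e, he, he0, hei, h2⟩ := hw
  refine ⟨d * e, A.mul_mem hd he, mul_ne_zero hd0 he0, ?_, ?_⟩
  · rw [mul_inv]
    exact Q.mul_mem hdi hei
  · have e1 : d * e * (z + w) = e * (d * z) + d * (e * w) := by ring
    rw [e1]
    exact A.add_mem (A.mul_mem he h1) (A.mul_mem hd h2)

lemma Wf.mul {A Q : Subalgebra k N} {z w : N} (hz : Wf A Q z) (hw : Wf A Q w) :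
    Wf A Q (z * w) := by
  obtain ⟨d, hd, hd0, hdi, h1⟩ := hz
  obtain ⟨e, he, he0, hei, h2⟩ := hw
  refine ⟨d * e, A.mul_mem hd he, mul_ne_zero hd0 he0, ?_, ?_⟩
  · rw [mul_inv]
    exact Q.mul_mem hdi hei
  · have e1 : d * e * (z * w) = (d * z) * (e * w) := by ring
    rw [e1]
    exact A.mul_mem h1 h2

lemma Wf.aeval {A Q : Subalgebra k N} {Z : N} (hL : ∀ l : L, Wf A Q (algebraMap L N l))
    (hZ : Wf A Q Z) (P : L[X]) : Wf A Q (Polynomial.aeval Z P) := by
  induction P using Polynomial.induction_on with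
  | C c => rw [aeval_C]; exact hL c
  | add P P' h1 h2 => rw [map_add]; exact h1.add h2
  | monomial n c h1 =>
    rw [pow_succ, ← mul_assoc, map_mul, aeval_X]
    exact h1.mul hZ

end top

lemma prod_lx {K : Type u} {I : Type} [Field K] [Fintype I] (x : I → K) (y : K) (b : Bool)
    (c : Option I → ℤ) :
    ∏ o, lx x y b o ^ c o = (zf y b)⁻¹ ^ c none * ∏ i, x i ^ c (some i) :=
  Fintype.prod_option _

theorem Bun.main (hnorm : WD_norm.{u}) : WD_bun.{u} := by
  intro p _ k L N _ _ _ _ _ _ _ _ T I G _ _ M f n a h g Γ hN hF hFn hnp Z hZ hNf Q hQ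
  have hp : p.Prime := Fact.out
  have hpz : (0 : ℤ) < (p : ℤ) := by exact_mod_cast hp.pos
  have hcN : CharP N p := charP_of_injective_algebraMap (algebraMap k N).injective p
  let m : I → ℤ := fun i => n i / (p : ℤ)
  let r : I → ℤ := fun i => n i % (p : ℤ)
  let y : T → N := fun t => yc Z (a t) (XM M m t)
  have hX : ∀ t, XM M m t ≠ 0 := XM_ne M m
  have hXN : ∀ t, algebraMap L N (XM M m t) ≠ 0 := fun t => (_root_.map_ne_zero _).2 (hX t)
  have hZa : ∀ b : L, Z - algebraMap L N b ≠ 0 := by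
    intro b h0
    apply hZ
    rw [sub_eq_zero.1 h0]
    exact isAlgebraic_algebraMap b
  have hy0 : ∀ t, y t ≠ 0 := fun t => div_ne_zero (hZa _) (hXN t)
  have hXy : ∀ t, algebraMap L N (XM M m t) * y t = Z - algebraMap L N (a t) := fun t =>
    mul_div_cancel₀ _ (hXN t)
  have htrL : ∀ t, Transcendental L (y t) := fun t => transcendental_yc hZ (hX t)
  obtain ⟨N0, hG⟩ := exists_BD (mapLM (K := N) M) (y := y) hy0
    (fun t => tr_of_transcendental (htrL t))
    (fun t t' => algebraMap L N (XM M m t / XM M m t'))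
    (fun t t' => algebraMap L N ((XM M m t / XM M m t') * ((a t - a t') / XM M m t)))
    (by
      intro t t'
      have h1 := hXN t
      have h2 := hXN t'
      change (Z - algebraMap L N (a t')) / algebraMap L N (XM M m t') =
        algebraMap L N (XM M m t / XM M m t') *
          ((Z - algebraMap L N (a t)) / algebraMap L N (XM M m t)) + _
      rw [map_mul, map_div₀, map_div₀, map_sub]
      field_simp
      ring)
    (fun t t' => map_BB2 M (XM_div_mem M m t t').2)
    (fun t t' => map_BB2 M (Subalgebra.mul_mem _ (XM_div_mem M m t t').2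
      (delta_mem M hnorm hF hN t t')))
  -- membership in `Q`
  have hnd : ∀ P' : L[X], P' ≠ 0 → P'.natDegree < p → ¬ ((X ^ p - C f : L[X]) ∣ P') := by
    intro P' h0 hd hdvd
    have := Polynomial.natDegree_le_of_dvd hdvd h0
    rw [natDegree_X_pow_sub_C] at this
    omega
  have hnd1 : ¬ ((X ^ p - C f : L[X]) ∣ 1) := hnd 1 one_ne_zero (by
    rw [natDegree_one]; exact hp.pos)
  have hQL : ∀ l : L, algebraMap L N l ∈ Q := fun l => (hQ _).2 ⟨C l, 1, hnd1, by simp⟩
  have hQZ : Z ∈ Q := (hQ _).2 ⟨X, 1, hnd1, by simp⟩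
  have hQi : ∀ b : L, (Z - algebraMap L N b)⁻¹ ∈ Q := fun b => (hQ _).2 ⟨1, X - C b,
    hnd _ (X_sub_C_ne_zero b) (by rw [natDegree_X_sub_C]; exact hp.one_lt), by
      rw [map_sub, aeval_X, aeval_C, map_one, inv_mul_cancel₀ (hZa b)]⟩
  have hyQ : ∀ t, y t ∈ Q := by
    intro t
    change (Z - algebraMap L N (a t)) / algebraMap L N (XM M m t) ∈ Q
    rw [div_eq_mul_inv, ← map_inv₀]
    exact Q.mul_mem (Q.sub_mem hQZ (hQL _)) (hQL _)
  have hyQ' : ∀ t, (y t)⁻¹ ∈ Q := by
    intro t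
    change ((Z - algebraMap L N (a t)) / algebraMap L N (XM M m t))⁻¹ ∈ Q
    rw [inv_div, div_eq_mul_inv]
    exact Q.mul_mem (hQL _) (hQi _)
  have hzQ : ∀ t b, zz (y t) b ∈ Q ∧ (zz (y t) b)⁻¹ ∈ Q := by
    intro t b
    cases b
    · exact ⟨hyQ' t, by
        change (y t)⁻¹⁻¹ ∈ Q
        rw [inv_inv]; exact hyQ t⟩
    · exact ⟨hyQ t, hyQ' t⟩
  refine ⟨T × Bool, Option I, inferInstance, inferInstance, bunLM (mapLM (K := N) M) hG,
    fun q => ly (y q.1) q.2, fun q => algebraMap L N (h q.1), fun o => o.elim (p : ℤ) r,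
    fun o => o.elim (-1) m, fun b o => o.elim 0 (Γ b), ⟨?_, ?_, ?_, ?_, ?_, ?_, ?_, ?_, ?_⟩,
    ?_, ?_⟩
  · -- yA
    rintro ⟨t, b⟩
    cases b
    · exact Subalgebra.one_mem _
    · exact self_mem_adj _ _
  · rintro ⟨t, b⟩
    cases b
    · exact one_ne_zero
    · exact hy0 t
  · rintro ⟨t, b⟩
    exact le_adj _ _ (mem_map_em (hN.hA t))
  · rintro ⟨t, b⟩
    refine adj_le ?_ (hzQ t b).1
    rintro _ ⟨z, _, rfl⟩
    exact hQL z
  · rintro ⟨t, b⟩ (_ | i)
    · change (zf (y t) b)⁻¹⁻¹ ∈ Q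
      rw [inv_inv]
      cases b
      · exact hyQ t
      · exact Q.one_mem
    · change (algebraMap L N (M.x t i))⁻¹ ∈ Q
      rw [← map_inv₀]
      exact hQL _
  · rintro ⟨t, b⟩
    cases b
    · change (1 : N)⁻¹ ∈ Q
      rw [inv_one]
      exact Q.one_mem
    · exact hyQ' t
  · -- the equation
    rintro ⟨t, b⟩
    have hz := zf_ne (hy0 t) b
    have e1 : ∏ o, (bunLM (mapLM (K := N) M) hG).x (t, b) o ^
        ((p : ℤ) * (fun o : Option I => o.elim (-1) m) o) =
        zf (y t) b ^ p * algebraMap L N (XM M m t) ^ p := by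
      refine (prod_lx _ _ _ _).trans ?_
      congr 1
      · change (zf (y t) b)⁻¹ ^ ((p : ℤ) * (-1)) = _
        rw [inv_zpow', mul_neg_one, neg_neg, zpow_natCast]
      · rw [XM, map_prod, ← Finset.prod_pow]
        refine Finset.prod_congr rfl fun i _ => ?_
        change (algebraMap L N (M.x t i)) ^ ((p : ℤ) * m i) = _
        rw [map_zpow₀, ← zpow_natCast, ← zpow_mul, mul_comm]
    have e2 : ∏ o, (bunLM (mapLM (K := N) M) hG).x (t, b) o ^
        ((fun o : Option I => o.elim (p : ℤ) r) o) =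
        (zf (y t) b ^ p)⁻¹ * algebraMap L N (XM M r t) := by
      refine (prod_lx _ _ _ _).trans ?_
      congr 1
      · change (zf (y t) b)⁻¹ ^ (p : ℤ) = _
        rw [zpow_natCast, inv_pow]
      · rw [XM, map_prod]
        refine Finset.prod_congr rfl fun i _ => ?_
        change (algebraMap L N (M.x t i)) ^ r i = _
        rw [map_zpow₀]
    rw [e1, e2]
    have h1 := hN.eq t
    rw [prod_split (p := p) _ (M.x0 t)] at h1
    change f = a t ^ p + XM M m t ^ p * XM M r t * h t at h1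
    have h2 : zf (y t) b ^ p * ly (y t) b ^ p = y t ^ p := by
      rw [← mul_pow, zf_mul_ly]
    have h3 : algebraMap L N (XM M m t) ^ p * y t ^ p = Z ^ p - algebraMap L N (a t) ^ p := by
      rw [← mul_pow, hXy, sub_pow_char]
    have h4 : zf (y t) b ^ p * (zf (y t) b ^ p)⁻¹ = 1 := mul_inv_cancel₀ (pow_ne_zero _ hz)
    change Z ^ p - algebraMap L N f = zf (y t) b ^ p * algebraMap L N (XM M m t) ^ p *
      (ly (y t) b ^ p - (zf (y t) b ^ p)⁻¹ * algebraMap L N (XM M r t) * algebraMap L N (h t))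
    rw [h1, map_add, map_mul, map_mul, map_pow, map_pow]
    linear_combination -h3 - algebraMap L N (XM M m t) ^ p * h2 +
      algebraMap L N (XM M m t) ^ p * algebraMap L N (XM M r t) * algebraMap L N (h t) * h4
  · rintro ⟨t, b⟩
    exact snc_ox ((mapLM (K := N) M).xA t) ((mapLM (K := N) M).snc t) (hy0 t) b
      ((hG.tr t).zz (hy0 t) b)
  · -- logarithmic tangent vectors
    rintro ⟨t, b⟩ κ _ _ φ
    let φ1 : M.A t →ₐ[k] κ := (AlgHom.comp φ (Subalgebra.inclusion (le_adj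
      ((M.A t).map (em k L N)) (zz (y t) b)))).comp (eqv (K := N) (M.A t)).toAlgHom
    obtain ⟨v, hv⟩ := hN.ln t κ φ1
    obtain ⟨E, hE1, hE2⟩ := lift_TV ((hG.tr t).zz (hy0 t) b) φ φ1 (fun _ => rfl) v.D
    have hE0 : ∀ z (hz : z ∈ adj ((M.A t).map (em k L N)) (zz (y t) b)), z = 1 →
        E.D ⟨z, hz⟩ = 0 := by
      rintro z hz rfl
      exact E.D_one
    have hcK : CharP κ p := charP_of_injective_algebraMap (algebraMap k κ).injective p
    have hr : ∀ i, ((r i : ℤ) : κ) = (n i : κ) := by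
      intro i
      have h1 : n i = (p : ℤ) * m i + r i := (Int.mul_ediv_add_emod _ _).symm
      rw [h1]
      push_cast
      rw [CharP.cast_eq_zero, zero_mul, zero_add]
    refine ⟨⟨E, fun o => o.elim 0 (fun o => o.elim 0 v.e), ?_⟩, ?_⟩
    · rintro (_ | _ | i) ho
      · change _ = _ * (0 : κ)
        rw [mul_zero]
        cases b
        · exact hE0 _ _ rfl
        · exact hE2 _
      · change _ = _ * (0 : κ)
        rw [mul_zero]
        cases b
        · exact hE2 _
        · exact hE0 _ _ inv_one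
      · exact (hE1 (M.x t i) (M.xA t i) ho).trans (v.hx i (M.xA t i))
    · have e1 : E.D ⟨algebraMap L N (h t), le_adj _ _ (mem_map_em (hN.hA t))⟩ +
          φ ⟨algebraMap L N (h t), le_adj _ _ (mem_map_em (hN.hA t))⟩ *
            ∑ o : Option (Option I), (((o.elim 0 fun o => o.elim (p : ℤ) r : ℤ)) : κ) *
              (o.elim 0 (fun o => o.elim 0 v.e) : κ) = om v n (hN.hA t) := by
        rw [Fintype.sum_option, Fintype.sum_option]
        simp only [Option.elim_none, Option.elim_some, mul_zero, zero_add]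
        rw [Finset.sum_congr rfl fun i _ => by rw [hr i]]
        congr 1
        exact hE1 (h t) (hN.hA t) _
      intro h0
      apply hv
      rw [← e1]
      exact h0
  · -- fractions
    rintro ⟨t, b⟩ q hq
    change ∃ α ∈ adj ((M.A t).map (em k L N)) (zz (y t) b),
      ∃ β ∈ adj ((M.A t).map (em k L N)) (zz (y t) b), β ≠ 0 ∧ β⁻¹ ∈ Q ∧ q * β = α
    set A' : Subalgebra k N := adj ((M.A t).map (em k L N)) (zz (y t) b)
    have hWL : ∀ l : L, Wf A' Q (algebraMap L N l) := by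
      intro l
      obtain ⟨c, hc, d, hd, hd0, h1⟩ := hF t l
      refine ⟨algebraMap L N d, le_adj _ _ (mem_map_em hd), (_root_.map_ne_zero _).2 hd0, ?_, ?_⟩
      · rw [← map_inv₀]; exact hQL _
      · rw [← map_mul, h1, mul_comm, mul_assoc, inv_mul_cancel₀ hd0, mul_one]
        exact le_adj _ _ (mem_map_em hc)
    have hWy : Wf A' Q (y t) := by
      cases b
      · refine ⟨(y t)⁻¹, self_mem_adj _ _, inv_ne_zero (hy0 t), ?_, ?_⟩
        · rw [inv_inv]; exact hyQ t
        · rw [inv_mul_cancel₀ (hy0 t)]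
          exact A'.one_mem
      · refine ⟨1, A'.one_mem, one_ne_zero, ?_, ?_⟩
        · rw [inv_one]; exact Q.one_mem
        · rw [one_mul]
          exact self_mem_adj _ _
    have hWZ : Wf A' Q Z := by
      have e : Z = algebraMap L N (XM M m t) * y t + algebraMap L N (a t) := by
        rw [hXy, sub_add_cancel]
      rw [e]
      exact ((hWL _).mul hWy).add (hWL _)
    obtain ⟨P, P', hP', h1⟩ := (hQ q).1 hq
    obtain ⟨d, hd, hd0, hdi, h2⟩ := Wf.aeval hWL hWZ P
    obtain ⟨e, he, he0, hei, h3⟩ := Wf.aeval hWL hWZ P'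
    have hP0 : P' ≠ 0 := by
      rintro rfl
      exact hP' (dvd_zero _)
    have hZP : Polynomial.aeval Z P' ≠ 0 := fun h0 => hP0 (transcendental_iff.1 hZ _ h0)
    refine ⟨e * (d * Polynomial.aeval Z P), A'.mul_mem he h2,
      d * (e * Polynomial.aeval Z P'), A'.mul_mem hd h3,
      mul_ne_zero hd0 (mul_ne_zero he0 hZP), ?_, ?_⟩
    · rw [mul_inv, mul_inv]
      refine Q.mul_mem hdi (Q.mul_mem hei ((hQ _).2 ⟨1, P', hP', ?_⟩))
      rw [inv_mul_cancel₀ hZP, map_one]
    · rw [← h1]; ring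
  · rintro b ⟨t, c⟩
    obtain ⟨w, hw0, hw, hw', h1⟩ := hFn b t
    refine ⟨algebraMap L N w, (_root_.map_ne_zero _).2 hw0, le_adj _ _ (mem_map_em hw), ?_, ?_⟩
    · rw [← map_inv₀]
      exact le_adj _ _ (mem_map_em hw')
    · refine Eq.trans ?_ (congrArg _ (prod_lx _ _ _ _).symm)
      change algebraMap L N (g b) = algebraMap L N w *
        ((zf (y t) c)⁻¹ ^ (0 : ℤ) * ∏ i, (algebraMap L N (M.x t i)) ^ (Γ b i))
      rw [h1, map_mul, map_prod, zpow_zero, one_mul]
      congr 1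
      exact Finset.prod_congr rfl fun i _ => map_zpow₀ _ _ _

end Pool.Agent.W85.WD
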