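import Pool.Agent.W558.WD.Stms
import Pool.Agent.W498.Tor.Tor

/-! # Project WILD: projective line bundles with local coordinates -/

set_option autoImplicit false
set_option linter.unusedVariables false
set_option linter.unusedSectionVars false

universe u

open Polynomial Pool.Agent.W558 Pool.Agent.W498.Tor

namespace Pool.Agent.W85.WD

section gen

variable {k K : Type u} [Field k] [Field K] [Algebra k K] {T I : Type}

/-- The local equations of the boundary on the charts of the line bundle. -/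
noncomputable def lx (x : I → K) (y : K) (b : Bool) : Option I → K :=
  fun o => o.elim (zf y b)⁻¹ x

/-- The equation of the zero section. -/
noncomputable def ly (y : K) (b : Bool) : K := if b then y else 1

/-- Comparison of the indices. -/
def ix : Option (Option I) → I ⊕ Bool
  | none => Sum.inr true
  | some none => Sum.inr false
  | some (some i) => Sum.inl i

lemma ix_inj : Function.Injective (ix : Option (Option I) → I ⊕ Bool) := by
  rintro (_ | _ | i) (_ | _ | j) h <;> simp_all [ix]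

lemma ox_eq (x : I → K) (y : K) (b : Bool) (o : Option (Option I)) :
    ox (ly y b) (lx x y b) o = xx x y b (ix o) := by
  rcases o with _ | _ | i <;> cases b <;> simp [ox, ly, lx, xx, ix, zz, zf]

lemma snc_reindex {A : Subalgebra k K} {J J' : Type} {x : J → K} {x' : J' → K} (e : J' → J)
    (he : Function.Injective e) (h : SNC A x) (hx : ∀ i, x' i = x (e i)) : SNC A x' := by
  have hxx : x' = fun i => x (e i) := funext hx
  subst hxx
  intro κ _ _ φ i hi hφ
  obtain ⟨D, hD, hD'⟩ := h κ φ (e i) hi hφ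
  exact ⟨D, hD, fun j hj hne hφj => hD' (e j) hj (fun h => hne (he h)) hφj⟩

lemma snc_ox {A : Subalgebra k K} {x : I → K} (hx : ∀ i, x i ∈ A) (hS : SNC A x) {y : K}
    (hy : y ≠ 0) (b : Bool) (h : Tr A (zz y b)) :
    SNC (adj A (zz y b)) (ox (ly y b) (lx x y b)) :=
  snc_reindex ix ix_inj (snc_pe hx hS hy b h) (ox_eq x y b)

lemma snc_lx {A : Subalgebra k K} {x : I → K} (hx : ∀ i, x i ∈ A) (hS : SNC A x) {y : K}
    (hy : y ≠ 0) (b : Bool) (h : Tr A (zz y b)) : SNC (adj A (zz y b)) (lx x y b) :=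
  snc_reindex some (Option.some_injective _) (snc_ox hx hS hy b h) fun _ => rfl

lemma zf_mul_zz {z : K} (hz : z ≠ 0) (b : Bool) : zf z b * zz z b = zf z (!b) := by
  cases b <;> simp [zf, zz, hz]

lemma zf_mul_ly (z : K) (b : Bool) : zf z b * ly z b = z := by
  cases b <;> simp [zf, ly]

/-- The conditions on the local coordinates. -/
structure BD (M : LM (⊥ : Subalgebra k K) ⊤ T I) (y : T → K) (N : ℕ) : Prop where
  y0 : ∀ t, y t ≠ 0
  tr : ∀ t, Tr (M.A t) (y t)
  key : ∀ n, N ≤ n → ∀ t t' b b', (M.H t' / M.H t) ^ n * (zf (y t') b' / zf (y t) b) ∈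
    adj (M.A t) (zz (y t) b)

variable (M : LM (⊥ : Subalgebra k K) ⊤ T I) {y : T → K} {N : ℕ}

lemma hrho (y : T → K) (N : ℕ) (t t' : T) (b b' : Bool) :
    M.H t' ^ (N + 1) * zf (y t') b' / (M.H t ^ (N + 1) * zf (y t) b) =
    (M.H t' / M.H t) * ((M.H t' / M.H t) ^ N * (zf (y t') b' / zf (y t) b)) := by
  rw [mul_div_mul_comm, ← div_pow, pow_succ']; ring

/-- The projective line bundle. -/
noncomputable def bunLM (hG : BD M y N) : LM (⊥ : Subalgebra k K) ⊤ (T × Bool) (Option I) where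
  A p := adj (M.A p.1) (zz (y p.1) p.2)
  H p := M.H p.1 ^ (N + 1) * zf (y p.1) p.2
  x p := lx (M.x p.1) (y p.1) p.2
  sm p := by
    have := M.sm p.1
    exact smooth_pe ((hG.tr p.1).zz (hG.y0 _) p.2)
  base p := bot_le
  H0 p := mul_ne_zero (pow_ne_zero _ (M.H0 _)) (zf_ne (hG.y0 _) _)
  HR p := trivial
  rt := by
    rintro ⟨t, b⟩ ⟨t', b'⟩
    change M.H t' ^ (N + 1) * zf (y t') b' / (M.H t ^ (N + 1) * zf (y t) b) ∈ _
    rw [hrho]
    exact Subalgebra.mul_mem _ (le_adj _ _ (M.rt t t')) (hG.key N le_rfl t t' b b')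
  gl := by
    rintro ⟨t, b⟩ ⟨t', b'⟩ f hf
    change ∃ n : ℕ, (M.H t' ^ (N + 1) * zf (y t') b' / (M.H t ^ (N + 1) * zf (y t) b)) ^ n * f ∈
      adj (M.A t) (zz (y t) b)
    have hk := hG.key N le_rfl t t' b b'
    have hr : M.H t' ^ (N + 1) * zf (y t') b' / (M.H t ^ (N + 1) * zf (y t) b) ∈
        adj (M.A t) (zz (y t) b) := by
      rw [hrho]
      exact Subalgebra.mul_mem _ (le_adj _ _ (M.rt t t')) hk
    refine adj_induction (M.A t') (zz (y t') b') (p := fun f => ∃ n : ℕ,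
      (M.H t' ^ (N + 1) * zf (y t') b' / (M.H t ^ (N + 1) * zf (y t) b)) ^ n * f ∈
        adj (M.A t) (zz (y t) b)) ?_ ?_ ?_ f hf
    · intro a ha
      obtain ⟨n, hn⟩ := M.gl t t' a ha
      refine ⟨n, ?_⟩
      rw [hrho, mul_pow, mul_right_comm]
      exact Subalgebra.mul_mem _ (le_adj _ _ hn) (Subalgebra.pow_mem _ hk n)
    · rintro a c ⟨n, hn⟩ ⟨m, hm⟩
      refine ⟨n + m, ?_⟩
      set r := M.H t' ^ (N + 1) * zf (y t') b' / (M.H t ^ (N + 1) * zf (y t) b)
      have h1 : r ^ (n + m) * (a + c) = r ^ m * (r ^ n * a) + r ^ n * (r ^ m * c) := by ring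
      rw [h1]
      exact Subalgebra.add_mem _ (Subalgebra.mul_mem _ (Subalgebra.pow_mem _ hr m) hn)
        (Subalgebra.mul_mem _ (Subalgebra.pow_mem _ hr n) hm)
    · rintro a ⟨n, hn⟩
      refine ⟨n + 1, ?_⟩
      have h2 : M.H t' ^ (N + 1) * zf (y t') b' / (M.H t ^ (N + 1) * zf (y t) b) *
          zz (y t') b' = (M.H t' / M.H t) ^ (N + 1) * (zf (y t') (!b') / zf (y t) b) := by
        rw [← zf_mul_zz (hG.y0 t') b', div_pow]
        ring
      have h1 : (M.H t' ^ (N + 1) * zf (y t') b' / (M.H t ^ (N + 1) * zf (y t) b)) ^ (n + 1) *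
          (a * zz (y t') b') =
          ((M.H t' ^ (N + 1) * zf (y t') b' / (M.H t ^ (N + 1) * zf (y t) b)) ^ n * a) *
            (M.H t' ^ (N + 1) * zf (y t') b' / (M.H t ^ (N + 1) * zf (y t) b) *
              zz (y t') b') := by ring
      rw [h1, h2]
      exact Subalgebra.mul_mem _ hn (hG.key (N + 1) (Nat.le_succ N) t t' b _)
  dn := fun p f hf => ⟨0, trivial⟩
  cv := by
    intro V hV
    obtain ⟨t, ht⟩ := M.cv V hV
    have h1 : ∀ b : Bool, zz (y t) b ∈ V → ∀ f ∈ adj (M.A t) (zz (y t) b), f ∈ V := by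
      intro b hb
      exact adj_induction (M.A t) (zz (y t) b) ht (fun a b ha hb => V.add_mem _ _ ha hb)
        (fun a ha => V.mul_mem _ _ ha hb)
    rcases V.mem_or_inv_mem (y t) with h | h
    · exact ⟨(t, true), h1 true h⟩
    · exact ⟨(t, false), h1 false h⟩
  xA := by
    rintro ⟨t, b⟩ (_ | i)
    · change (zf (y t) b)⁻¹ ∈ adj (M.A t) (zz (y t) b)
      cases b
      · exact self_mem_adj _ _
      · change (1 : K)⁻¹ ∈ _
        rw [inv_one]
        exact Subalgebra.one_mem _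
    · exact le_adj _ _ (M.xA t i)
  x0 := by
    rintro ⟨t, b⟩ (_ | i)
    · exact inv_ne_zero (zf_ne (hG.y0 _) _)
    · exact M.x0 t i
  gi := by
    rintro ⟨t, b⟩ ⟨t', b'⟩ (_ | i)
    · refine ⟨1, ?_⟩
      change (M.H t' ^ (N + 1) * zf (y t') b' / (M.H t ^ (N + 1) * zf (y t) b)) ^ 1 *
        ((zf (y t') b')⁻¹ / (zf (y t) b)⁻¹) ∈ adj (M.A t) (zz (y t) b)
      have h1 : (M.H t' ^ (N + 1) * zf (y t') b' / (M.H t ^ (N + 1) * zf (y t) b)) ^ 1 *
          ((zf (y t') b')⁻¹ / (zf (y t) b)⁻¹) = (M.H t' / M.H t) ^ (N + 1) := by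
        have e1 := zf_ne (hG.y0 t) b
        have e2 := zf_ne (hG.y0 t') b'
        have e3 := M.H0 t
        rw [pow_one, div_pow]
        field_simp
      rw [h1]
      exact Subalgebra.pow_mem _ (le_adj _ _ (M.rt t t')) _
    · obtain ⟨n, hn⟩ := M.gi t t' i
      refine ⟨n, ?_⟩
      change (M.H t' ^ (N + 1) * zf (y t') b' / (M.H t ^ (N + 1) * zf (y t) b)) ^ n *
        (M.x t' i / M.x t i) ∈ adj (M.A t) (zz (y t) b)
      rw [hrho, mul_pow, mul_right_comm]
      exact Subalgebra.mul_mem _ (le_adj _ _ hn)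
        (Subalgebra.pow_mem _ (hG.key N le_rfl t t' b b') n)
  snc p := snc_lx (M.xA p.1) (M.snc p.1) (hG.y0 _) p.2 ((hG.tr p.1).zz (hG.y0 _) p.2)

/-- A common exponent. -/
lemma exists_common [Finite T] (u : T → T → K)
    (hu : ∀ t t', ∃ n : ℕ, (M.H t' / M.H t) ^ n * u t t' ∈ M.A t) :
    ∃ N : ℕ, ∀ n, N ≤ n → ∀ t t', (M.H t' / M.H t) ^ n * u t t' ∈ M.A t := by
  classical
  have : Fintype T := Fintype.ofFinite T
  choose n hn using hu
  refine ⟨Finset.univ.sup fun q : T × T => n q.1 q.2, fun N hN t t' =>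
    M.gl_mono ?_ (hn t t')⟩
  exact (Finset.le_sup (f := fun q : T × T => n q.1 q.2) (Finset.mem_univ (t, t'))).trans hN

lemma exists_BD [Finite T] (hy : ∀ t, y t ≠ 0) (htr : ∀ t, Tr (M.A t) (y t))
    (u w : T → T → K) (huw : ∀ t t', y t' = u t t' * y t + w t t')
    (hu : ∀ t t', ∃ n : ℕ, (M.H t' / M.H t) ^ n * u t t' ∈ M.A t)
    (hw : ∀ t t', ∃ n : ℕ, (M.H t' / M.H t) ^ n * w t t' ∈ M.A t) : ∃ N, BD M y N := by
  obtain ⟨N1, h1⟩ := exists_common M u hu
  obtain ⟨N2, h2⟩ := exists_common M w hw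
  refine ⟨N1 + N2, hy, htr, ?_⟩
  intro n hn t t' b b'
  have a1 := h1 n (by omega) t t'
  have a2 := h2 n (by omega) t t'
  have a3 : (M.H t' / M.H t) ^ n ∈ M.A t := (M.A t).pow_mem (M.rt t t') n
  cases b'
  · change (M.H t' / M.H t) ^ n * (y t' / zf (y t) b) ∈ _
    rw [huw t t']
    cases b
    · change (M.H t' / M.H t) ^ n * ((u t t' * y t + w t t') / y t) ∈ adj (M.A t) (y t)⁻¹
      have e : (M.H t' / M.H t) ^ n * ((u t t' * y t + w t t') / y t) =
          (M.H t' / M.H t) ^ n * u t t' + (M.H t' / M.H t) ^ n * w t t' * (y t)⁻¹ := by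
        have := hy t
        field_simp
      rw [e]
      exact Subalgebra.add_mem _ (le_adj _ _ a1)
        (Subalgebra.mul_mem _ (le_adj _ _ a2) (self_mem_adj _ _))
    · change (M.H t' / M.H t) ^ n * ((u t t' * y t + w t t') / 1) ∈ adj (M.A t) (y t)
      have e : (M.H t' / M.H t) ^ n * ((u t t' * y t + w t t') / 1) =
          (M.H t' / M.H t) ^ n * u t t' * y t + (M.H t' / M.H t) ^ n * w t t' := by
        rw [div_one]; ring
      rw [e]
      exact Subalgebra.add_mem _ (Subalgebra.mul_mem _ (le_adj _ _ a1) (self_mem_adj _ _))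
        (le_adj _ _ a2)
  · change (M.H t' / M.H t) ^ n * (1 / zf (y t) b) ∈ _
    cases b
    · change (M.H t' / M.H t) ^ n * (1 / y t) ∈ adj (M.A t) (y t)⁻¹
      rw [one_div]
      exact Subalgebra.mul_mem _ (le_adj _ _ a3) (self_mem_adj _ _)
    · change (M.H t' / M.H t) ^ n * (1 / 1) ∈ _
      rw [div_one, mul_one]
      exact le_adj _ _ a3

end gen

end Pool.Agent.W85.WD
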